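import Mathlib

/-!
# Rank of a Hermitian matrix, relations between powers of vectors, Hilbert functions
-/

set_option autoImplicit false

namespace Pool.Agent.Q321.SIC

open scoped InnerProductSpace ComplexConjugate
open Finset

section herm

variable {n : Type} [Fintype n] [DecidableEq n]

theorem trace_mul_self {G : Matrix n n ℂ} (hG : G.IsHermitian) :
    (G * G).trace = ∑ i, ((hG.eigenvalues i : ℂ)) ^ 2 := by
  have h := hG.spectral_theorem
  have h2 : G * G = Unitary.conjStarAlgAut ℂ _ hG.eigenvectorUnitary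
      (Matrix.diagonal (RCLike.ofReal ∘ hG.eigenvalues) *
        Matrix.diagonal (RCLike.ofReal ∘ hG.eigenvalues)) := by
    rw [map_mul, ← h]
  rw [h2, Unitary.conjStarAlgAut_apply, Matrix.trace_mul_comm, ← mul_assoc]
  have h3 : (star (hG.eigenvectorUnitary : Matrix n n ℂ)) * (hG.eigenvectorUnitary : Matrix n n ℂ) = 1 :=
    Unitary.coe_star_mul_self _
  rw [h3, one_mul, Matrix.diagonal_mul_diagonal, Matrix.trace_diagonal]
  refine Finset.sum_congr rfl fun i _ => ?_
  simp [sq]

theorem trace_mul_self' {G : Matrix n n ℂ} (hG : G.IsHermitian) :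
    (G * G).trace = ((∑ i, ∑ j, ‖G i j‖ ^ 2 : ℝ) : ℂ) := by
  simp only [Matrix.trace, Matrix.diag_apply, Matrix.mul_apply]
  push_cast
  refine Finset.sum_congr rfl fun i _ => Finset.sum_congr rfl fun j _ => ?_
  have : G j i = conj (G i j) := by
    have := congrFun (congrFun hG j) i
    rw [Matrix.conjTranspose_apply] at this
    exact this.symm
  rw [this, Complex.mul_conj, Complex.normSq_eq_norm_sq]
  push_cast
  rfl

/-- `(tr G)² ≤ rank G · ‖G‖²` for a Hermitian matrix -/
theorem trace_sq_le {G : Matrix n n ℂ} (hG : G.IsHermitian) :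
    (∑ i, (G i i).re) ^ 2 ≤ (G.rank : ℝ) * ∑ i, ∑ j, ‖G i j‖ ^ 2 := by
  have h1 : ∑ i, (G i i).re = ∑ i, hG.eigenvalues i := by
    have := hG.trace_eq_sum_eigenvalues
    have h := congrArg Complex.re this
    rw [Matrix.trace, Complex.re_sum] at h
    simp only [Matrix.diag_apply] at h
    rw [h, Complex.re_sum]
    simp
  have h2 : ∑ i, ∑ j, ‖G i j‖ ^ 2 = ∑ i, hG.eigenvalues i ^ 2 := by
    have := (trace_mul_self hG).symm.trans (trace_mul_self' hG)
    exact_mod_cast this.symm
  rw [h1, h2, hG.rank_eq_card_non_zero_eigs]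
  have h3 : ∑ i, hG.eigenvalues i = ∑ i ∈ univ.filter fun i => hG.eigenvalues i ≠ 0, hG.eigenvalues i := by
    rw [Finset.sum_filter_ne_zero]
  have h4 : Fintype.card {i // hG.eigenvalues i ≠ 0} = (univ.filter fun i => hG.eigenvalues i ≠ 0).card :=
    Fintype.card_subtype _
  rw [h3, h4]
  refine (sq_sum_le_card_mul_sum_sq).trans ?_
  refine mul_le_mul_of_nonneg_left ?_ (by positivity)
  exact Finset.sum_le_sum_of_subset_of_nonneg (Finset.filter_subset _ _) fun i _ _ => sq_nonneg _

end herm

section rel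

variable {ι κ : Type} [Fintype ι] [Fintype κ]

theorem inner_sum (x y : EuclideanSpace ℂ ι) : ⟪x, y⟫_ℂ = ∑ a, conj (x a) * y a := by
  simp [PiLp.inner_apply, mul_comm]

/-- the relations between the `m`-th powers of the vectors `x i` -/
def Rel (x : κ → EuclideanSpace ℂ ι) (m : ℕ) : Submodule ℂ (κ → ℂ) where
  carrier := {v | ∀ j, ∑ i, v i * ⟪x j, x i⟫_ℂ ^ m = 0}
  add_mem' := by
    intro a b ha hb j
    simp only [Pi.add_apply, add_mul, Finset.sum_add_distrib]
    rw [ha j, hb j, add_zero]
  zero_mem' := by intro j; simp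
  smul_mem' := by
    intro c a ha j
    simp only [Pi.smul_apply, smul_eq_mul, mul_assoc]
    rw [← Finset.mul_sum, ha j, mul_zero]

theorem mem_rel {x : κ → EuclideanSpace ℂ ι} {m : ℕ} {v : κ → ℂ} :
    v ∈ Rel x m ↔ ∀ j, ∑ i, v i * ⟪x j, x i⟫_ℂ ^ m = 0 := Iff.rfl

/-- a relation kills all monomial tensors -/
theorem rel_tensor {x : κ → EuclideanSpace ℂ ι} {m : ℕ} {v : κ → ℂ} (hv : v ∈ Rel x m)
    (a : Fin m → ι) : ∑ i, v i * ∏ t, x i (a t) = 0 := by
  classical
  have h : ∑ a : Fin m → ι, ‖∑ i, v i * ∏ t, x i (a t)‖ ^ 2 = 0 := by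
    have h1 : ((∑ a : Fin m → ι, ‖∑ i, v i * ∏ t, x i (a t)‖ ^ 2 : ℝ) : ℂ) =
        ∑ j, conj (v j) * ∑ i, v i * ⟪x j, x i⟫_ℂ ^ m := by
      push_cast
      have h2 : ∀ a : Fin m → ι, ((‖∑ i, v i * ∏ t, x i (a t)‖ : ℂ)) ^ 2 =
          ∑ j, ∑ i, conj (v j) * (v i * ∏ t, (conj (x j (a t)) * x i (a t))) := by
        intro a
        rw [← Complex.conj_mul', map_sum, Finset.sum_mul]
        refine Finset.sum_congr rfl fun j _ => ?_
        rw [Finset.mul_sum]
        refine Finset.sum_congr rfl fun i _ => ?_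
        rw [map_mul, map_prod, Finset.prod_mul_distrib]
        ring
      rw [Finset.sum_congr rfl fun a _ => h2 a, Finset.sum_comm]
      refine Finset.sum_congr rfl fun j _ => ?_
      rw [Finset.sum_comm, Finset.mul_sum]
      refine Finset.sum_congr rfl fun i _ => ?_
      rw [← Finset.mul_sum, ← Finset.mul_sum, inner_sum, Fintype.sum_pow]
    have h3 : ∑ j, conj (v j) * ∑ i, v i * ⟪x j, x i⟫_ℂ ^ m = 0 := by
      refine Finset.sum_eq_zero fun j _ => ?_
      rw [mem_rel.1 hv j, mul_zero]
    rw [h3] at h1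
    exact_mod_cast h1
  have h4 := (Finset.sum_eq_zero_iff_of_nonneg (fun a _ => by positivity)).1 h a (mem_univ a)
  simpa using h4

/-- evaluation at the points -/
noncomputable def ev (x : κ → EuclideanSpace ℂ ι) : MvPolynomial ι ℂ →ₗ[ℂ] (κ → ℂ) :=
  LinearMap.pi fun i => (MvPolynomial.aeval (fun a => x i a)).toLinearMap

theorem ev_apply (x : κ → EuclideanSpace ℂ ι) (f : MvPolynomial ι ℂ) (i : κ) :
    ev x f i = MvPolynomial.eval (fun a => x i a) f := by
  change MvPolynomial.aeval (fun a => x i a) f = _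
  exact DFunLike.congr_fun (MvPolynomial.coe_aeval_eq_eval (fun a => x i a)) f

/-- the linear form `v ↦ ⟨u, v⟩` -/
noncomputable def lin (u : EuclideanSpace ℂ ι) : MvPolynomial ι ℂ :=
  ∑ a, MvPolynomial.C (conj (u a)) * MvPolynomial.X a

theorem lin_hom (u : EuclideanSpace ℂ ι) : (lin u).IsHomogeneous 1 := by
  unfold lin
  apply MvPolynomial.IsHomogeneous.sum
  intro a _
  have := (MvPolynomial.isHomogeneous_C ι (conj (u a))).mul (MvPolynomial.isHomogeneous_X ℂ a)
  simpa using this

theorem eval_lin (u v : EuclideanSpace ℂ ι) :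
    MvPolynomial.eval (fun a => v a) (lin u) = ⟪u, v⟫_ℂ := by
  rw [inner_sum]
  simp [lin]

theorem rel_form {x : κ → EuclideanSpace ℂ ι} {m : ℕ} {v : κ → ℂ} (hv : v ∈ Rel x m)
    {f : MvPolynomial ι ℂ} (hf : f.IsHomogeneous m) :
    ∑ i, v i * MvPolynomial.eval (fun a => x i a) f = 0 := by
  classical
  have h1 : ∀ i, MvPolynomial.eval (fun a => x i a) f =
      ∑ s ∈ f.support, f.coeff s * (s.toMultiset.map fun a => x i a).prod := by
    intro i
    rw [MvPolynomial.eval_eq]
    refine Finset.sum_congr rfl fun s _ => ?_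
    rw [Finsupp.toMultiset_map, Finsupp.prod_toMultiset]
    congr 1
    rw [Finsupp.prod_mapDomain_index (by simp) (by intros; rw [pow_add])]
    rfl
  rw [Finset.sum_congr rfl fun i _ => by rw [h1 i]]
  simp only [Finset.mul_sum]
  rw [Finset.sum_comm]
  refine Finset.sum_eq_zero fun s hs => ?_
  have hdeg : s.toMultiset.card = m := by
    have := hf (MvPolynomial.mem_support_iff.1 hs)
    rw [Finsupp.card_toMultiset]
    rw [Finsupp.weight_apply] at this
    simpa [Finsupp.sum] using this
  obtain ⟨l, hl⟩ := Quot.exists_rep s.toMultiset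
  have hl' : (l : Multiset ι) = s.toMultiset := hl
  have hlen : l.length = m := by rw [← hdeg, ← hl']; rfl
  subst hlen
  have h2 := rel_tensor hv (fun t => l.get t)
  have h3 : ∀ i, (s.toMultiset.map fun a => x i a).prod = ∏ t, x i (l.get t) := by
    intro i
    rw [← hl', Multiset.map_coe, Multiset.prod_coe, ← List.prod_ofFn]
    congr 1
    conv_lhs => rw [← List.ofFn_get l]
    rw [List.map_ofFn]
    rfl
  calc ∑ i, v i * (f.coeff s * (s.toMultiset.map fun a => x i a).prod)
      = f.coeff s * ∑ i, v i * ∏ t, x i (l.get t) := by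
        rw [Finset.mul_sum]
        refine Finset.sum_congr rfl fun i _ => ?_
        rw [h3 i]; ring
    _ = 0 := by rw [h2, mul_zero]

/-- the number of conditions imposed on forms of degree `m`, plus the number of relations, is the
number of points -/
theorem hilb_add_rel (x : κ → EuclideanSpace ℂ ι) (m : ℕ) :
    Module.finrank ℂ (Submodule.map (ev x) (MvPolynomial.homogeneousSubmodule ι ℂ m)) +
      Module.finrank ℂ (Rel x m) = Fintype.card κ := by
  classical
  set E := Submodule.map (ev x) (MvPolynomial.homogeneousSubmodule ι ℂ m) with hE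
  let e : (κ → ℂ) ≃ₗ[ℂ] Module.Dual ℂ (κ → ℂ) := (Pi.basisFun ℂ κ).toDualEquiv
  have he : ∀ v w : κ → ℂ, e v w = ∑ i, v i * w i := by
    intro v w
    change (Pi.basisFun ℂ κ).toDual v w = _
    have hv : v = ∑ i, v i • (Pi.basisFun ℂ κ) i := by
      conv_lhs => rw [← (Pi.basisFun ℂ κ).sum_repr v]
      simp
    conv_lhs => rw [hv]
    rw [map_sum, LinearMap.sum_apply]
    refine Finset.sum_congr rfl fun i _ => ?_
    rw [map_smul, LinearMap.smul_apply, Module.Basis.toDual_apply_right]
    simp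
  have h1 : Submodule.map (e : (κ → ℂ) →ₗ[ℂ] Module.Dual ℂ (κ → ℂ)) (Rel x m) =
      E.dualAnnihilator := by
    ext φ
    rw [Submodule.mem_dualAnnihilator]
    constructor
    · rintro ⟨v, hv, rfl⟩ w ⟨f, hf, rfl⟩
      change e v _ = 0
      rw [he]
      have := rel_form hv ((MvPolynomial.mem_homogeneousSubmodule m f).1 hf)
      rw [← this]
      refine Finset.sum_congr rfl fun i _ => ?_
      rw [ev_apply]
    · intro h
      refine ⟨e.symm φ, ?_, by simp⟩
      intro j
      have hf : (lin (x j)) ^ m ∈ MvPolynomial.homogeneousSubmodule ι ℂ m := by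
        rw [MvPolynomial.mem_homogeneousSubmodule]
        have := (lin_hom (x j)).pow m
        rwa [one_mul] at this
      have := h _ ⟨_, hf, rfl⟩
      rw [← e.apply_symm_apply φ, he] at this
      rw [← this]
      refine Finset.sum_congr rfl fun i _ => ?_
      rw [ev_apply, map_pow, eval_lin]
  have h2 : Module.finrank ℂ (Rel x m) = Module.finrank ℂ E.dualAnnihilator := by
    rw [← h1]
    exact (LinearEquiv.finrank_map_eq e (Rel x m)).symm
  rw [h2]
  have := Subspace.finrank_add_finrank_dualAnnihilator_eq E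
  rw [this]
  simp

/-- the nullity bound -/
theorem rel_bound [DecidableEq κ] {x : κ → EuclideanSpace ℂ ι} (h1 : ∀ i, ‖x i‖ = 1) {ε : ℝ}
    (m : ℕ) (h2 : ∀ i j, i ≠ j → ‖⟪x i, x j⟫_ℂ ^ m‖ ^ 2 = ε) (hε : 0 ≤ ε) :
    (Module.finrank ℂ (Rel x m) : ℝ) * (1 + ((Fintype.card κ : ℝ) - 1) * ε) ≤
      (Fintype.card κ : ℝ) * (((Fintype.card κ : ℝ) - 1) * ε) := by
  classical
  rcases Nat.eq_zero_or_pos (Fintype.card κ) with h0 | h0
  · have : Module.finrank ℂ (Rel x m) ≤ Module.finrank ℂ (κ → ℂ) := Submodule.finrank_le _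
    rw [Module.finrank_fintype_fun_eq_card, h0] at this
    have h3 : Module.finrank ℂ (Rel x m) = 0 := by omega
    rw [h3, h0]; simp
  let G : Matrix κ κ ℂ := Matrix.of fun i j => ⟪x i, x j⟫_ℂ ^ m
  have hG : G.IsHermitian := by
    ext i j
    simp only [Matrix.conjTranspose_apply, G, Matrix.of_apply]
    rw [star_pow]
    congr 1
    exact inner_conj_symm _ _
  have hd : ∀ i, G i i = 1 := by
    intro i
    simp only [G, Matrix.of_apply]
    rw [inner_self_eq_norm_sq_to_K, h1 i]
    simp
  have hker : Module.finrank ℂ (Rel x m) + G.rank = Fintype.card κ := by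
    have h3 : Rel x m = LinearMap.ker G.mulVecLin := by
      ext v
      rw [LinearMap.mem_ker, mem_rel, Matrix.mulVecLin_apply]
      constructor
      · intro h
        funext j
        rw [Matrix.mulVec, dotProduct, Pi.zero_apply, ← h j]
        refine Finset.sum_congr rfl fun i _ => ?_
        simp only [G, Matrix.of_apply]; ring
      · intro h j
        have := congrFun h j
        rw [Matrix.mulVec, dotProduct, Pi.zero_apply] at this
        rw [← this]
        refine Finset.sum_congr rfl fun i _ => ?_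
        simp only [G, Matrix.of_apply]; ring
    rw [h3]
    have := LinearMap.finrank_range_add_finrank_ker G.mulVecLin
    rw [Module.finrank_fintype_fun_eq_card] at this
    rw [Matrix.rank]
    omega
  have hT := trace_sq_le hG
  have e1 : ∑ i, (G i i).re = (Fintype.card κ : ℝ) := by
    simp [hd]
  have e2 : ∑ i, ∑ j, ‖G i j‖ ^ 2 = (Fintype.card κ : ℝ) * (1 + ((Fintype.card κ : ℝ) - 1) * ε) := by
    have : ∀ i j, ‖G i j‖ ^ 2 = ε + if i = j then (1 - ε) else 0 := by
      intro i j
      by_cases h : i = j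
      · subst h; rw [hd]; simp
      · rw [if_neg h, add_zero]; exact h2 i j h
    simp only [this, Finset.sum_add_distrib, Finset.sum_ite_eq, mem_univ, if_true,
      Finset.sum_const, Finset.card_univ, nsmul_eq_mul]
    ring
  rw [e1, e2] at hT
  have e3 : (G.rank : ℝ) = (Fintype.card κ : ℝ) - (Module.finrank ℂ (Rel x m) : ℝ) := by
    rw [← hker]; push_cast; ring
  rw [e3] at hT
  have hn : (0 : ℝ) < Fintype.card κ := by exact_mod_cast h0
  have h5 : (Fintype.card κ : ℝ) ≤ ((Fintype.card κ : ℝ) - (Module.finrank ℂ (Rel x m) : ℝ)) *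
      (1 + ((Fintype.card κ : ℝ) - 1) * ε) := by
    by_contra h6
    push Not at h6
    have := mul_lt_mul_of_pos_left h6 hn
    nlinarith
  nlinarith

end rel

end Pool.Agent.Q321.SIC
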