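import Mathlib
import Pool.Agent.Q321.SIC.Trace

/-!
# Symmetries acting on the relations between powers
-/

set_option autoImplicit false

namespace Pool.Agent.Q321.SIC

open scoped InnerProductSpace ComplexConjugate
open Finset

/-- two operators commuting up to a scalar on a finite dimensional space -/
theorem pow_finrank_eq_one {K : Type} [AddCommGroup K] [Module ℂ K] [FiniteDimensional ℂ K]
    (S T : K →ₗ[ℂ] K) (hS : Function.Injective S) (hT : Function.Injective T) (z : ℂ)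
    (h : ∀ v, S (T v) = z • T (S v)) : z ^ Module.finrank ℂ K = 1 := by
  have h1 : S ∘ₗ T = z • (T ∘ₗ S) := by
    ext v
    exact h v
  have h2 := congrArg LinearMap.det h1
  rw [LinearMap.det_smul, LinearMap.det_comp, LinearMap.det_comp] at h2
  have hS' : LinearMap.det S ≠ 0 := by
    intro h0
    have := LinearMap.bot_lt_ker_of_det_eq_zero h0
    rw [LinearMap.ker_eq_bot.2 hS] at this
    exact lt_irrefl _ this
  have hT' : LinearMap.det T ≠ 0 := by
    intro h0
    have := LinearMap.bot_lt_ker_of_det_eq_zero h0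
    rw [LinearMap.ker_eq_bot.2 hT] at this
    exact lt_irrefl _ this
  have h3 : (z ^ Module.finrank ℂ K - 1) * (LinearMap.det S * LinearMap.det T) = 0 := by
    linear_combination -h2
  rcases mul_eq_zero.1 h3 with h4 | h4
  · exact sub_eq_zero.1 h4
  · exact absurd h4 (mul_ne_zero hS' hT')

section sym

variable {ι κ : Type} [Fintype ι] [Fintype κ]

/-- the monomial operator on coefficient vectors -/
def mon (σ : Equiv.Perm κ) (c : κ → ℂ) (m : ℕ) : (κ → ℂ) →ₗ[ℂ] (κ → ℂ) where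
  toFun v := fun j => c (σ.symm j) ^ m * v (σ.symm j)
  map_add' := by intro v w; funext j; simp [mul_add]
  map_smul' := by intro a v; funext j; simp; ring

theorem mon_apply (σ : Equiv.Perm κ) (c : κ → ℂ) (m : ℕ) (v : κ → ℂ) (i : κ) :
    mon σ c m v (σ i) = c i ^ m * v i := by
  simp [mon]

theorem mon_injective {σ : Equiv.Perm κ} {c : κ → ℂ} (hc : ∀ i, c i ≠ 0) (m : ℕ) :
    Function.Injective (mon σ c m) := by
  intro v w h
  funext i
  have := congrFun h (σ i)
  rw [mon_apply, mon_apply] at this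
  exact mul_left_cancel₀ (pow_ne_zero m (hc i)) this

/-- the general principle: a monomial operator which is compatible with the Gram matrix preserves
the relations -/
theorem mon_mem {x : κ → EuclideanSpace ℂ ι} {σ : Equiv.Perm κ} {c b : κ → ℂ}
    (h : ∀ i j, c i * ⟪x (σ j), x (σ i)⟫_ℂ = b j * ⟪x j, x i⟫_ℂ) (m : ℕ) {v : κ → ℂ}
    (hv : v ∈ Rel x m) : mon σ c m v ∈ Rel x m := by
  intro j
  obtain ⟨j', rfl⟩ := σ.surjective j
  rw [← Equiv.sum_comp σ]
  have : ∀ i, mon σ c m v (σ i) * ⟪x (σ j'), x (σ i)⟫_ℂ ^ m =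
      b j' ^ m * (v i * ⟪x j', x i⟫_ℂ ^ m) := by
    intro i
    rw [mon_apply]
    calc c i ^ m * v i * ⟪x (σ j'), x (σ i)⟫_ℂ ^ m
        = v i * (c i * ⟪x (σ j'), x (σ i)⟫_ℂ) ^ m := by rw [mul_pow]; ring
      _ = b j' ^ m * (v i * ⟪x j', x i⟫_ℂ ^ m) := by rw [h, mul_pow]; ring
  rw [Finset.sum_congr rfl fun i _ => this i, ← Finset.mul_sum, hv j', mul_zero]

/-- a unitary map which permutes the lines gives a permutation and phases -/
theorem exists_perm {x : κ → EuclideanSpace ℂ ι} (h1 : ∀ i, ‖x i‖ = 1)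
    (h2 : ∀ i j, i ≠ j → ‖⟪x i, x j⟫_ℂ‖ < 1)
    (U : EuclideanSpace ℂ ι ≃ₗᵢ[ℂ] EuclideanSpace ℂ ι)
    (hU : ∀ i, ∃ (j : κ) (c : ℂ), U (x i) = c • x j) :
    ∃ (σ : Equiv.Perm κ) (c : κ → ℂ), (∀ i, U (x i) = c i • x (σ i)) ∧ (∀ i, c i ≠ 0) ∧
      ∀ i, ‖c i‖ = 1 := by
  choose s c hs using hU
  have hn : ∀ i, ‖c i‖ = 1 := by
    intro i
    have := congrArg norm (hs i)
    rw [norm_smul, h1, mul_one, U.norm_map, h1] at this
    exact this.symm
  have hc : ∀ i, c i ≠ 0 := by
    intro i h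
    have := hn i
    rw [h, norm_zero] at this
    exact zero_ne_one this
  have hinj : Function.Injective s := by
    intro i j hij
    by_contra hne
    have h3 : ‖⟪x i, x j⟫_ℂ‖ = 1 := by
      rw [← U.inner_map_map, hs i, hs j, hij, inner_smul_left, inner_smul_right,
        inner_self_eq_norm_sq_to_K, h1, norm_mul, norm_mul, RCLike.norm_conj, hn, hn]
      simp
    exact absurd h3 (ne_of_lt (h2 i j hne))
  refine ⟨Equiv.ofBijective s (Finite.injective_iff_bijective.1 hinj), c, ?_, hc, hn⟩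
  intro i
  exact hs i

/-- `n` divides `m` times the number of relations, for two symmetries commuting up to a primitive
`n`-th root of unity -/
theorem dvd_of_pair {x : κ → EuclideanSpace ℂ ι} (h1 : ∀ i, ‖x i‖ = 1)
    (h2 : ∀ i j, i ≠ j → ‖⟪x i, x j⟫_ℂ‖ < 1)
    (U V : EuclideanSpace ℂ ι ≃ₗᵢ[ℂ] EuclideanSpace ℂ ι)
    (hU : ∀ i, ∃ (j : κ) (c : ℂ), U (x i) = c • x j)
    (hV : ∀ i, ∃ (j : κ) (c : ℂ), V (x i) = c • x j) {ζ : ℂ} {n : ℕ} (hζ : IsPrimitiveRoot ζ n)
    (h : ∀ v, U (V v) = ζ • V (U v)) (m : ℕ) : n ∣ m * Module.finrank ℂ (Rel x m) := by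
  obtain ⟨σ, c, hs, hc, hcn⟩ := exists_perm h1 h2 U hU
  obtain ⟨τ, b, ht, hb, hbn⟩ := exists_perm h1 h2 V hV
  have key : ∀ (W : EuclideanSpace ℂ ι ≃ₗᵢ[ℂ] EuclideanSpace ℂ ι) (ρ : Equiv.Perm κ) (a : κ → ℂ),
      (∀ i, W (x i) = a i • x (ρ i)) → (∀ i, ‖a i‖ = 1) →
      ∀ i j, a i * ⟪x (ρ j), x (ρ i)⟫_ℂ = a j * ⟪x j, x i⟫_ℂ := by
    intro W ρ a hW ha i j
    have h3 : ⟪x j, x i⟫_ℂ = conj (a j) * (a i * ⟪x (ρ j), x (ρ i)⟫_ℂ) := by
      rw [← W.inner_map_map, hW, hW, inner_smul_left, inner_smul_right]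
    rw [h3, ← mul_assoc (a j), Complex.mul_conj, Complex.normSq_eq_norm_sq, ha]
    simp
  let S : Rel x m →ₗ[ℂ] Rel x m := (mon σ c m).restrict fun v hv => mon_mem (key U σ c hs hcn) m hv
  let T : Rel x m →ₗ[ℂ] Rel x m := (mon τ b m).restrict fun v hv => mon_mem (key V τ b ht hbn) m hv
  have hS : Function.Injective S := by
    intro v w hvw
    apply Subtype.ext
    exact mon_injective hc m (congrArg Subtype.val hvw)
  have hT : Function.Injective T := by
    intro v w hvw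
    apply Subtype.ext
    exact mon_injective hb m (congrArg Subtype.val hvw)
  have hx0 : ∀ i, x i ≠ 0 := by
    intro i h0
    have := h1 i
    rw [h0, norm_zero] at this
    exact zero_ne_one this
  have hζ1 : ‖ζ‖ = 1 ∨ IsEmpty κ := by
    rcases isEmpty_or_nonempty κ with he | ⟨⟨i⟩⟩
    · exact Or.inr he
    · left
      have := congrArg norm (h (x i))
      rw [norm_smul, U.norm_map, V.norm_map, V.norm_map, U.norm_map, h1, mul_one] at this
      exact this.symm
  have hcomm : ∀ i, σ (τ i) = τ (σ i) ∧ b i * c (τ i) = ζ * (c i * b (σ i)) := by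
    intro i
    have h3 := h (x i)
    rw [ht, hs, map_smul, map_smul, hs, ht, smul_smul, smul_smul, smul_smul, mul_assoc ζ] at h3
    have hperm : σ (τ i) = τ (σ i) := by
      by_contra hne
      have h4 := h2 _ _ hne
      have h5 : ‖⟪(b i * c (τ i)) • x (σ (τ i)), (b i * c (τ i)) • x (σ (τ i))⟫_ℂ‖ =
        ‖⟪(b i * c (τ i)) • x (σ (τ i)), (ζ * (c i * b (σ i))) • x (τ (σ i))⟫_ℂ‖ := by
        rw [← h3]
      rcases hζ1 with hz | he
      · rw [inner_smul_left, inner_smul_right, inner_smul_left, inner_smul_right,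
          inner_self_eq_norm_sq_to_K, h1] at h5
        simp only [norm_mul, RCLike.norm_conj, hbn, hcn, hz] at h5
        simp at h5
        rw [← h5] at h4
        exact lt_irrefl _ h4
      · exact he.elim i
    refine ⟨hperm, ?_⟩
    rw [hperm] at h3
    exact smul_left_injective ℂ (hx0 _) h3
  have hfin := pow_finrank_eq_one S T hS hT (ζ ^ m) (by
    intro v
    apply Subtype.ext
    funext j
    obtain ⟨j', rfl⟩ := σ.surjective j
    obtain ⟨i, rfl⟩ := τ.surjective j'
    change mon σ c m (mon τ b m v) (σ (τ i)) = ζ ^ m * (mon τ b m (mon σ c m v) (σ (τ i)))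
    rw [mon_apply, mon_apply, (hcomm i).1, mon_apply, mon_apply]
    have := congrArg (· ^ m) (hcomm i).2
    simp only [mul_pow] at this
    calc c (τ i) ^ m * (b i ^ m * (v : κ → ℂ) i) = (b i ^ m * c (τ i) ^ m) * (v : κ → ℂ) i := by ring
      _ = _ := by rw [this]; ring)
  rw [← pow_mul] at hfin
  exact hζ.dvd_of_pow_eq_one _ hfin

end sym

end Pool.Agent.Q321.SIC
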