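import Mathlib
import Pool.Agent.Q321.SIC.Sym

/-!
# Relations between powers of the vectors of a Weyl-Heisenberg orbit
-/

set_option autoImplicit false

namespace Pool.Agent.Q321.SIC

open scoped InnerProductSpace ComplexConjugate
open Finset

section quot

variable {A : Type} [AddCommGroup A] [Fintype A]

/-- a function invariant under a subgroup has a sum divisible by the order of the subgroup -/
theorem card_dvd_sum (H : AddSubgroup A) (f : A → ℕ) (hf : ∀ b, ∀ h ∈ H, f (b + h) = f b) :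
    Nat.card H ∣ ∑ b, f b := by
  classical
  let g : (A ⧸ H) × H → A := fun p => p.1.out + (p.2 : A)
  have hmk : ∀ p : (A ⧸ H) × H, (QuotientAddGroup.mk (g p) : A ⧸ H) = p.1 := by
    intro p
    have h1 : (QuotientAddGroup.mk (g p) : A ⧸ H) = QuotientAddGroup.mk (p.1.out) := by
      rw [QuotientAddGroup.eq]
      simp only [g, neg_add_rev, add_assoc, neg_add_cancel, add_zero]
      exact H.neg_mem p.2.2
    rw [h1]
    exact QuotientAddGroup.out_eq' p.1
  have hg : Function.Bijective g := by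
    constructor
    · intro p q hpq
      have h1 : p.1 = q.1 := by rw [← hmk p, ← hmk q, hpq]
      have h2 : (p.2 : A) = q.2 := by
        have : p.1.out + (p.2 : A) = q.1.out + (q.2 : A) := hpq
        rw [h1] at this
        exact add_left_cancel this
      exact Prod.ext h1 (Subtype.ext h2)
    · intro b
      have h1 : -(Quotient.out (QuotientAddGroup.mk b : A ⧸ H)) + b ∈ H := by
        rw [← QuotientAddGroup.eq]
        exact QuotientAddGroup.out_eq' _
      exact ⟨(QuotientAddGroup.mk b, ⟨_, h1⟩), by simp [g]⟩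
  have h1 : ∑ b, f b = ∑ p : (A ⧸ H) × H, f (g p) := (Fintype.sum_bijective g hg _ _ fun _ => rfl).symm
  rw [h1, Fintype.sum_prod_type]
  have h2 : ∀ q : A ⧸ H, ∑ h : H, f (g (q, h)) = Nat.card H * f q.out := by
    intro q
    have : ∀ h : H, f (g (q, h)) = f q.out := fun h => hf _ _ h.2
    rw [Finset.sum_congr rfl fun h _ => this h, Finset.sum_const, Finset.card_univ, smul_eq_mul,
      Nat.card_eq_fintype_card]
  rw [Finset.sum_congr rfl fun q _ => h2 q, ← Finset.mul_sum]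
  exact Dvd.intro _ rfl

end quot

/-- the trace of an idempotent -/
theorem trace_idem {K : Type} [AddCommGroup K] [Module ℂ K] [FiniteDimensional ℂ K]
    (f : K →ₗ[ℂ] K) (hf : IsIdempotentElem f) :
    LinearMap.trace ℂ K f = (Module.finrank ℂ (LinearMap.range f) : ℂ) :=
  (LinearMap.IsIdempotentElem.isProj_range _ hf).trace

section wh

variable {A : Type} [AddCommGroup A] [Fintype A]

/-- the Weyl-Heisenberg orbit of `ψ` -/
noncomputable def wh (ψ : EuclideanSpace ℂ A) (p : A × AddChar A ℂ) : EuclideanSpace ℂ A :=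
  WithLp.toLp 2 fun j => p.2 j * ψ (j - p.1)

theorem wh_apply (ψ : EuclideanSpace ℂ A) (p : A × AddChar A ℂ) (j : A) :
    wh ψ p j = p.2 j * ψ (j - p.1) := rfl

theorem char_conj_mul (χ : AddChar A ℂ) (a : A) : conj (χ a) * χ a = 1 := by
  rw [Complex.conj_mul', χ.norm_apply]; simp

/-- the permutation of the modulations -/
noncomputable def modPerm (χ : AddChar A ℂ) : Equiv.Perm (A × AddChar A ℂ) :=
  Equiv.prodCongr (Equiv.refl A) (Equiv.addLeft χ)

/-- the permutation of the shifts -/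
noncomputable def shiftPerm (s : A) : Equiv.Perm (A × AddChar A ℂ) :=
  Equiv.prodCongr (Equiv.addRight s) (Equiv.refl _)

theorem mod_gram (ψ : EuclideanSpace ℂ A) (χ : AddChar A ℂ) (p q : A × AddChar A ℂ) :
    ⟪wh ψ (modPerm χ q), wh ψ (modPerm χ p)⟫_ℂ = ⟪wh ψ q, wh ψ p⟫_ℂ := by
  obtain ⟨a1, χ1⟩ := p
  obtain ⟨a2, χ2⟩ := q
  rw [inner_sum, inner_sum]
  refine Finset.sum_congr rfl fun j _ => ?_
  simp only [wh_apply, modPerm, Equiv.prodCongr_apply, Prod.map_apply, Equiv.refl_apply,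
    Equiv.coe_addLeft, AddChar.add_apply, map_mul]
  linear_combination (conj (χ2 j) * conj (ψ (j - a2)) * χ1 j * ψ (j - a1)) * char_conj_mul χ j

theorem shift_gram (ψ : EuclideanSpace ℂ A) (s : A) (p q : A × AddChar A ℂ) :
    conj (p.2 s) * ⟪wh ψ (shiftPerm s q), wh ψ (shiftPerm s p)⟫_ℂ =
      conj (q.2 s) * ⟪wh ψ q, wh ψ p⟫_ℂ := by
  obtain ⟨a1, χ1⟩ := p
  obtain ⟨a2, χ2⟩ := q
  rw [inner_sum, inner_sum, ← Equiv.sum_comp (Equiv.addRight s), Finset.mul_sum, Finset.mul_sum]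
  refine Finset.sum_congr rfl fun j _ => ?_
  have e1 : ∀ a : A, j + s - (a + s) = j - a := fun a => by abel
  simp only [wh_apply, shiftPerm, Equiv.prodCongr_apply, Prod.map_apply, Equiv.refl_apply,
    Equiv.coe_addRight, map_mul, AddChar.map_add_eq_mul, e1]
  linear_combination (conj (χ2 j) * conj (χ2 s) * conj (ψ (j - a2)) * χ1 j * ψ (j - a1)) *
    char_conj_mul χ1 s

variable (ψ : EuclideanSpace ℂ A) (m : ℕ)

/-- modulations acting on the relations -/
noncomputable def R (χ : AddChar A ℂ) : Rel (wh ψ) m →ₗ[ℂ] Rel (wh ψ) m :=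
  (mon (modPerm χ) (fun _ => 1) m).restrict fun _ hv =>
    mon_mem (b := fun _ => 1) (fun i j => by rw [mod_gram]) m hv

/-- shifts acting on the relations -/
noncomputable def Sh (s : A) : Rel (wh ψ) m →ₗ[ℂ] Rel (wh ψ) m :=
  (mon (shiftPerm s) (fun p => conj (p.2 s)) m).restrict fun _ hv =>
    mon_mem (b := fun p => conj (p.2 s)) (fun i j => shift_gram ψ s i j) m hv

theorem R_apply (χ : AddChar A ℂ) (v : Rel (wh ψ) m) (a : A) (θ : AddChar A ℂ) :
    (R ψ m χ v : A × AddChar A ℂ → ℂ) (a, θ) = (v : A × AddChar A ℂ → ℂ) (a, θ - χ) := by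
  change mon (modPerm χ) (fun _ => 1) m (v : A × AddChar A ℂ → ℂ) (a, θ) = _
  have : (a, θ) = modPerm χ (a, θ - χ) := by
    simp [modPerm]
  rw [this, mon_apply]
  simp

theorem Sh_apply (s : A) (v : Rel (wh ψ) m) (a : A) (θ : AddChar A ℂ) :
    (Sh ψ m s v : A × AddChar A ℂ → ℂ) (a, θ) =
      conj (θ s) ^ m * (v : A × AddChar A ℂ → ℂ) (a - s, θ) := by
  change mon (shiftPerm s) (fun p => conj (p.2 s)) m (v : A × AddChar A ℂ → ℂ) (a, θ) = _
  have : (a, θ) = shiftPerm s (a - s, θ) := by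
    simp [shiftPerm]
  rw [this, mon_apply]

theorem R_mul (χ η : AddChar A ℂ) : R ψ m χ ∘ₗ R ψ m η = R ψ m (χ + η) := by
  ext v p
  obtain ⟨a, θ⟩ := p
  rw [LinearMap.comp_apply, R_apply, R_apply, R_apply, sub_sub]

theorem R_zero : R ψ m 0 = LinearMap.id := by
  ext v p
  obtain ⟨a, θ⟩ := p
  rw [R_apply]
  simp

theorem Sh_neg_Sh (s : A) : Sh ψ m (-s) ∘ₗ Sh ψ m s = LinearMap.id := by
  ext v p
  obtain ⟨a, θ⟩ := p
  rw [LinearMap.comp_apply, Sh_apply, Sh_apply]
  have h1 : a - -s - s = a := by abel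
  rw [h1, ← mul_assoc, ← mul_pow, ← map_mul, ← AddChar.map_add_eq_mul]
  simp

theorem R_Sh (χ : AddChar A ℂ) (s : A) :
    R ψ m χ ∘ₗ Sh ψ m s = (χ s) ^ m • (Sh ψ m s ∘ₗ R ψ m χ) := by
  ext v p
  obtain ⟨a, θ⟩ := p
  rw [LinearMap.comp_apply, R_apply, Sh_apply, LinearMap.smul_apply]
  change _ = (χ s) ^ m * ((Sh ψ m s (R ψ m χ v) : A × AddChar A ℂ → ℂ) (a, θ))
  rw [Sh_apply, R_apply]
  have h1 : conj ((θ - χ) s) = conj (θ s) * χ s := by
    have h2 : (θ - χ) s * χ s = θ s := by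
      rw [← AddChar.add_apply, sub_add_cancel]
    have h3 := char_conj_mul (θ - χ) s
    have h4 := char_conj_mul χ s
    rw [← h2, map_mul]
    linear_combination -(conj ((θ - χ) s)) * h4
  rw [h1, mul_pow]
  ring

/-- the trace of a modulation on the relations -/
noncomputable def tr (χ : AddChar A ℂ) : ℂ := LinearMap.trace ℂ (Rel (wh ψ) m) (R ψ m χ)

theorem tr_eq_zero (χ : AddChar A ℂ) (s : A) (h : (χ s) ^ m ≠ 1) : tr ψ m χ = 0 := by
  have h1 : R ψ m χ = (χ s) ^ m • (Sh ψ m s ∘ₗ R ψ m χ ∘ₗ Sh ψ m (-s)) := by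
    have h2 := R_Sh ψ m χ s
    have h3 : Sh ψ m s ∘ₗ Sh ψ m (-s) = LinearMap.id := by
      have := Sh_neg_Sh ψ m (-s)
      rwa [neg_neg] at this
    calc R ψ m χ = R ψ m χ ∘ₗ (Sh ψ m s ∘ₗ Sh ψ m (-s)) := by rw [h3, LinearMap.comp_id]
      _ = (R ψ m χ ∘ₗ Sh ψ m s) ∘ₗ Sh ψ m (-s) := by rw [LinearMap.comp_assoc]
      _ = _ := by rw [h2, LinearMap.smul_comp, LinearMap.comp_assoc]
  have h2 : tr ψ m χ = (χ s) ^ m * tr ψ m χ := by
    conv_lhs => rw [tr, h1, map_smul, smul_eq_mul]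
    congr 1
    rw [LinearMap.trace_comp_comm', LinearMap.comp_assoc, Sh_neg_Sh, LinearMap.comp_id]
    rfl
  have h3 : ((χ s) ^ m - 1) * tr ψ m χ = 0 := by linear_combination -h2
  rcases mul_eq_zero.1 h3 with h4 | h4
  · exact absurd (sub_eq_zero.1 h4) h
  · exact h4

/-- the spectral projections -/
noncomputable def P (b : A) : Rel (wh ψ) m →ₗ[ℂ] Rel (wh ψ) m :=
  ((Fintype.card A : ℂ))⁻¹ • ∑ χ : AddChar A ℂ, χ b • R ψ m χ

theorem P_idem (b : A) : IsIdempotentElem (P ψ m b) := by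
  have hA : (Fintype.card A : ℂ) ≠ 0 := by exact_mod_cast Fintype.card_ne_zero
  have hne : ∀ χ : AddChar A ℂ, χ b ≠ 0 := by
    intro χ h0
    have := χ.norm_apply b
    rw [h0, norm_zero] at this
    exact zero_ne_one this
  have h1 : ∀ χ : AddChar A ℂ, (χ b • R ψ m χ : Module.End ℂ (Rel (wh ψ) m)) *
      (∑ η : AddChar A ℂ, η b • R ψ m η) = ∑ η : AddChar A ℂ, η b • R ψ m η := by
    intro χ
    rw [Finset.mul_sum,
      ← Equiv.sum_comp (Equiv.addLeft χ) (fun η : AddChar A ℂ => η b • R ψ m η)]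
    refine Finset.sum_congr rfl fun η _ => ?_
    rw [Equiv.coe_addLeft, AddChar.add_apply, smul_mul_smul_comm, ← R_mul]
    rfl
  change (((Fintype.card A : ℂ))⁻¹ • ∑ χ : AddChar A ℂ, χ b • R ψ m χ :
    Module.End ℂ (Rel (wh ψ) m)) * (((Fintype.card A : ℂ))⁻¹ • ∑ χ : AddChar A ℂ, χ b • R ψ m χ) =
    ((Fintype.card A : ℂ))⁻¹ • ∑ χ : AddChar A ℂ, χ b • R ψ m χ
  rw [smul_mul_smul_comm, Finset.sum_mul, Finset.sum_congr rfl fun χ _ => h1 χ, Finset.sum_const,
    Finset.card_univ, AddChar.card_eq, ← Nat.cast_smul_eq_nsmul ℂ, smul_smul, mul_assoc,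
    inv_mul_cancel₀ hA, mul_one]

/-- the dimensions of the spectral pieces -/
noncomputable def fdim (b : A) : ℕ := Module.finrank ℂ (LinearMap.range (P ψ m b))

theorem fdim_eq (b : A) :
    (fdim ψ m b : ℂ) = (Fintype.card A : ℂ)⁻¹ * ∑ χ : AddChar A ℂ, χ b * tr ψ m χ := by
  have h1 := trace_idem (P ψ m b) (P_idem ψ m b)
  rw [fdim, ← h1, P, map_smul, map_sum, smul_eq_mul]
  congr 1
  refine Finset.sum_congr rfl fun χ _ => ?_
  rw [map_smul, smul_eq_mul, tr]

theorem fdim_sum : ∑ b, fdim ψ m b = Module.finrank ℂ (Rel (wh ψ) m) := by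
  classical
  have hA : (Fintype.card A : ℂ) ≠ 0 := by exact_mod_cast Fintype.card_ne_zero
  have h : ((∑ b, fdim ψ m b : ℕ) : ℂ) = (Module.finrank ℂ (Rel (wh ψ) m) : ℂ) := by
    push_cast
    rw [Finset.sum_congr rfl fun b _ => fdim_eq ψ m b, ← Finset.mul_sum, Finset.sum_comm]
    have h1 : ∀ χ : AddChar A ℂ, ∑ b, χ b * tr ψ m χ =
        if χ = 0 then (Fintype.card A : ℂ) * tr ψ m 0 else 0 := by
      intro χ
      rw [← Finset.sum_mul, AddChar.sum_eq_ite]
      split_ifs with hc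
      · rw [hc]
      · rw [zero_mul]
    rw [Finset.sum_congr rfl fun χ _ => h1 χ, Finset.sum_ite_eq' univ (0 : AddChar A ℂ),
      if_pos (mem_univ _), ← mul_assoc, inv_mul_cancel₀ hA, one_mul, tr, R_zero]
    exact LinearMap.trace_id ℂ _
  exact_mod_cast h

theorem fdim_add (b a : A) : fdim ψ m (b + m • a) = fdim ψ m b := by
  have h : (fdim ψ m (b + m • a) : ℂ) = (fdim ψ m b : ℂ) := by
    rw [fdim_eq, fdim_eq]
    congr 1
    refine Finset.sum_congr rfl fun χ _ => ?_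
    by_cases hc : (χ a) ^ m = 1
    · rw [AddChar.map_add_eq_mul, AddChar.map_nsmul_eq_pow, hc, mul_one]
    · rw [tr_eq_zero ψ m χ a hc, mul_zero, mul_zero]
  exact_mod_cast h

/-- **the order of `m A` divides the number of relations** between the `m`-th powers of the
vectors of a Weyl-Heisenberg orbit -/
theorem card_dvd_rel :
    Nat.card (nsmulAddMonoidHom (α := A) m).range ∣ Module.finrank ℂ (Rel (wh ψ) m) := by
  rw [← fdim_sum]
  refine card_dvd_sum _ _ fun b h hh => ?_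
  obtain ⟨a, rfl⟩ := hh
  exact fdim_add ψ m b a

end wh

end Pool.Agent.Q321.SIC
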